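import Pool.Agent.Y751.SW.Lin
import Pool.Agent.Results.MP_76a5fe_nt.RegularPoints

set_option autoImplicit false

/-!
# The primes in all windows of at least polylogarithmic length around almost all primes

In every interval `(X, X + Y]`, `Y ≥ X ^ θ₀` (Hoheisel's exponent), all but a proportion `ε` of the primes
`m` are such that ALL windows `(m - s, m + t]` with `s, t ≤ Y` and `s + t ≥ log ^ B X` contain between
`c (s + t) / log X` and `(s + t) / (c log X)` primes, at all but `B` scales the primes have a constant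
density around `m` up to `η`, and in each of these windows all but a proportion `η` of the primes are
terms of `l`-term arithmetic progressions of primes of the same window with difference at most
`log ^ B X`. The same holds for an arbitrary set `A` of primes in all intervals of length `X ^ θ`, `θ > 0`.
-/

namespace Pool.Agent.Results.MP_293bbf_nt.AllWindowsAroundPrimes

open Finset Filter
open Pool.Agent.TH977.PW (N)
open Pool.Agent.Y751.SW (Nice Bad Good)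

theorem primes (θ : ℝ) (hθ : 0 < θ) (hθ1 : θ ≤ 1) :
    ∀ ε : ℝ, 0 < ε → ∃ c : ℝ, 0 < c ∧ ∀ (l : ℕ) (η : ℝ), 2 ≤ l → 0 < η → ∃ B : ℕ,
      ∀ᶠ X : ℕ in atTop, ∀ Y : ℕ, (X : ℝ) ^ θ ≤ Y → 4 * Y ≤ X →
        ∀ A : Set ℕ, (∀ p ∈ A, p.Prime) →
          (N (Bad A 1 l c η B X Y) X (X + Y) : ℝ) ≤ ε * Y / Real.log X := by
  have hval : ∀ m : ℕ, ((1 : ℕ) : ℤ) * (m : ℤ) + 0 = ((m : ℕ) : ℤ) := fun m => by push_cast; ring
  obtain ⟨r0, hr0, h0⟩ := Pool.Agent.Y751.SW.lin_full (fun _ : Fin 1 => 1) (fun _ => 0)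
    (fun _ => one_pos)
    (fun i => by
      rw [Nat.cast_one]
      exact isCoprime_one_left) (fun i j _ _ => Subsingleton.elim i j)
    (fun p hp => ⟨1, fun _ h => by
      rw [hval] at h
      have : p ∣ 1 := by exact_mod_cast h
      exact hp.one_lt.ne' (Nat.dvd_one.1 this)⟩)
    (fun r => {m | ∀ p : ℕ, p.Prime → p ∣ m → (m : ℝ) ^ (1 / (r : ℝ)) < (p : ℝ)})
    (fun r => {m | ∀ p : ℕ, p.Prime → p ∣ m → (m : ℝ) ^ (1 / (r : ℝ)) < (p : ℝ)})
    (fun _ => subset_rfl) 1 (Fintype.card_fin 1)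
    (fun r m _ hm i p hp hd => hm p hp (by rw [hval] at hd; exact_mod_cast hd))
    (fun r m _ h1 h2 => fun p hp hd => h1 0 p hp (by rw [hval]; exact_mod_cast hd)) θ hθ hθ1
  intro ε hε
  obtain ⟨c, hc, h⟩ := (h0 r0 le_rfl).2 ε hε
  refine ⟨c, hc, fun l η hl hη => ?_⟩
  obtain ⟨B, hB⟩ := h l η hl hη
  refine ⟨B, ?_⟩
  filter_upwards [hB] with X hX Y hY1 hY2 A hA
  have h1 := hX Y hY1 hY2 A (fun p hp q hq hd =>
    Pool.Agent.TH977.PW.rpow_lt_dvd r0 p q hr0 (hA p hp) hq hd)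
  rwa [pow_one] at h1

open Classical in
theorem result :
    (∃ θ₀ : ℝ, 0 < θ₀ ∧ θ₀ < 1 ∧ ∀ ε : ℝ, 0 < ε → ∃ c : ℝ, 0 < c ∧
      ∀ (l : ℕ) (η : ℝ), 2 ≤ l → 0 < η → ∃ B : ℕ,
        ∀ᶠ X : ℕ in atTop, ∀ Y : ℕ, (X : ℝ) ^ θ₀ ≤ Y → 4 * Y ≤ X →
          (1 - ε) * (((Ioc X (X + Y)).filter Nat.Prime).card : ℝ) ≤
            (((Ioc X (X + Y)).filter
              (fun m => m.Prime ∧ Good {p | p.Prime} 1 l c η B X Y m)).card : ℝ)) ∧
    ∀ θ ε : ℝ, 0 < θ → θ ≤ 1 → 0 < ε → ∃ c : ℝ, 0 < c ∧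
      ∀ (l : ℕ) (η : ℝ), 2 ≤ l → 0 < η → ∃ B : ℕ,
        ∀ᶠ X : ℕ in atTop, ∀ Y : ℕ, (X : ℝ) ^ θ ≤ Y → 4 * Y ≤ X →
          ∀ A : Set ℕ, (∀ p ∈ A, p.Prime) →
            (((Ioc X (X + Y)).filter (fun m => m ∈ A ∧ ¬ Good A 1 l c η B X Y m)).card : ℝ) ≤
              ε * Y / Real.log X := by
  refine ⟨?_, fun θ ε hθ hθ1 hε => ?_⟩
  · obtain ⟨⟨θ, hθ0, hθ1, κ, hκ, X₀, -, hS⟩, -⟩ := Pool.Agent.Results.MP_76a5fe_nt.RegularPoints.result
    refine ⟨θ, hθ0, hθ1, fun ε hε => ?_⟩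
    obtain ⟨c, hc, h⟩ := primes θ hθ0 hθ1.le (ε * κ) (by positivity)
    refine ⟨c, hc, fun l η hl hη => ?_⟩
    obtain ⟨B, hB⟩ := h l η hl hη
    refine ⟨B, ?_⟩
    filter_upwards [hB, eventually_ge_atTop X₀] with X hX hX0 Y hY1 hY2
    have h1 := hX Y hY1 hY2 {p | p.Prime} (fun p hp => hp)
    have h2 := hS X Y hX0 hY1 (by omega)
    have h3 : (N (Bad {p | p.Prime} 1 l c η B X Y) X (X + Y) : ℝ) ≤
        ε * (((Ioc X (X + Y)).filter Nat.Prime).card : ℝ) := by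
      refine h1.trans ?_
      have h4 := mul_le_mul_of_nonneg_left h2 hε.le
      refine le_trans (le_of_eq ?_) h4
      ring
    have h5 : (((Ioc X (X + Y)).filter Nat.Prime).card : ℝ) ≤
        (((Ioc X (X + Y)).filter
          (fun m => m.Prime ∧ Good {p | p.Prime} 1 l c η B X Y m)).card : ℝ) +
        (N (Bad {p | p.Prime} 1 l c η B X Y) X (X + Y) : ℝ) := by
      rw [← Nat.cast_add]
      apply Nat.cast_le.2
      unfold N
      refine (card_le_card ?_).trans (card_union_le _ _)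
      intro m hm
      rw [mem_filter] at hm
      rw [mem_union, mem_filter, mem_filter]
      by_cases hg : Good {p | p.Prime} 1 l c η B X Y m
      · exact Or.inl ⟨hm.1, hm.2, hg⟩
      · exact Or.inr ⟨hm.1, hm.2, hg⟩
    linarith
  · obtain ⟨c, hc, h⟩ := primes θ hθ hθ1 ε hε
    refine ⟨c, hc, fun l η hl hη => ?_⟩
    obtain ⟨B, hB⟩ := h l η hl hη
    refine ⟨B, ?_⟩
    filter_upwards [hB] with X hX Y hY1 hY2 A hA
    have h1 := hX Y hY1 hY2 A hA
    refine le_trans (Nat.cast_le.2 (card_le_card ?_)) h1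
    intro m hm
    rw [mem_filter] at hm ⊢
    exact hm

end Pool.Agent.Results.MP_293bbf_nt.AllWindowsAroundPrimes
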